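import Mathlib
import Pool.Agent.W543.MO.Parts

set_option autoImplicit false

/-! The radical of the Karoubi envelope (statement `RADKAR_stmt` of `Pool.Agent.W543.MO.Parts`). -/

open CategoryTheory

namespace Pool.Agent.W319.MO

theorem key {𝒟 : Type 1} [Category.{0} 𝒟] {P : Idempotents.Karoubi 𝒟} (b : End P) (a : End P.X)
    (hb : b.f = a ≫ P.p) (n : ℕ) :
    (show P ⟶ P from b ^ n).f = (show P.X ⟶ P.X from a ^ n) ≫ P.p := by
  induction n with
  | zero =>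
    rw [pow_zero, pow_zero]
    show P.p = 𝟙 _ ≫ P.p
    rw [Category.id_comp]
  | succ n ih =>
    rw [pow_succ, pow_succ]
    show b.f ≫ (show P ⟶ P from b ^ n).f = (a ≫ (show P.X ⟶ P.X from a ^ n)) ≫ P.p
    rw [hb, Category.assoc, Category.assoc, ← ih, Idempotents.Karoubi.p_comp]

theorem t_RADKAR : Pool.Agent.W543.MO.RADKAR_stmt := by
  intro 𝒟 _ _ hR P Q f hf
  ext
  apply hR f.f
  intro h
  set g : Q ⟶ P := ⟨Q.p ≫ h ≫ P.p, by simp⟩ with hg
  obtain ⟨n, hn⟩ := hf g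
  have hb : (f ≫ g).f = (f.f ≫ h) ≫ P.p := by
    rw [Idempotents.Karoubi.comp_f, hg]
    show f.f ≫ Q.p ≫ h ≫ P.p = _
    rw [← Category.assoc, Idempotents.Karoubi.comp_p, Category.assoc]
  have h1 := key (show End P from f ≫ g) (show End P.X from f.f ≫ h) hb n
  rw [hn] at h1
  refine ⟨n + 1, ?_⟩
  rw [pow_succ']
  show (show P.X ⟶ P.X from (show End P.X from f.f ≫ h) ^ n) ≫ (f.f ≫ h) = 0
  have h2 : P.p ≫ (f.f ≫ h) = f.f ≫ h := by
    rw [← Category.assoc, Idempotents.Karoubi.p_comp]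
  rw [← h2, ← Category.assoc]
  have h3 : (show P.X ⟶ P.X from (show End P.X from f.f ≫ h) ^ n) ≫ P.p = 0 := by
    rw [← h1]; rfl
  rw [h2]
  erw [h3]
  rw [Limits.zero_comp]

end Pool.Agent.W319.MO
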